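import Pool.Agent.Y395.GX.Stm

set_option autoImplicit false

/-! Project GX, job GX-MAIN. -/

namespace Pool.Agent.Y662.GX

open Finset Pool.Agent.Y395.GX

lemma ind_congr {V : Type} {f : ℕ} {T T' : SimpleGraph (Fin f)} (e : T ≃g T')
    (H : SimpleGraph V) : T.IsIndContained H ↔ T'.IsIndContained H :=
  ⟨fun ⟨φ⟩ => ⟨e.symm.toEmbedding.trans φ⟩, fun ⟨φ⟩ => ⟨e.toEmbedding.trans φ⟩⟩

theorem main (hS : SStep) (hO : SOrd) : SMain := by
  classical
  intro V _ G W d f q hW hdeg hfq T hT p hp0 hp1
  have h1p : 0 ≤ 1 - p := by linarith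
  have hX : 0 ≤ 1 - p * (1 - p) ^ f := by
    have h1 : (1 - p) ^ f ≤ 1 := pow_le_one₀ h1p (by linarith)
    have h2 : p * (1 - p) ^ f ≤ 1 * 1 := mul_le_mul hp1 h1 (by positivity) zero_le_one
    linarith
  rcases Nat.eq_zero_or_pos f with rfl | hf
  · have h : ∀ F : Finset (Sym2 V), T.IsIndContained (gr F) := fun F =>
      ⟨⟨⟨fun a => a.elim0, fun a => a.elim0⟩, fun {a} => a.elim0⟩⟩
    have h2 : Ex p (ed G) (fun F => if T.IsIndContained (gr F) then 0 else 1) = 0 := by
      unfold Ex
      refine Finset.sum_eq_zero fun F _ => ?_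
      beta_reduce
      rw [if_pos (h F), mul_zero]
    rw [h2]
    simp
  · obtain ⟨T', hN, ⟨e⟩⟩ := hO f T hT
    obtain ⟨v0, hv0⟩ := hW
    have hfil : (ed G).filter (fun e => ¬ ∀ x ∈ e, x ∈ ({v0} : Finset V)) = ed G := by
      refine Finset.filter_true_of_mem ?_
      intro e he hcon
      induction e using Sym2.ind with
      | _ a b =>
        have hab : G.Adj a b := by
          rw [ed] at he
          simpa using he
        have ha := hcon a (Sym2.mem_mk_left a b)
        have hb := hcon b (Sym2.mem_mk_right a b)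
        rw [Finset.mem_singleton] at ha hb
        rw [ha, hb] at hab
        exact G.irrefl hab
    have h := hS V G W d f q hdeg hfq T' hN p hp0 hp1 1 le_rfl hf {v0} (fun _ => v0) ∅
      (by simp) (fun a _ => ⟨Finset.mem_singleton_self _, hv0⟩) (Finset.empty_subset _) (by
        refine ⟨fun a b ha hb _ => Fin.ext (by omega), fun a b ha hb => ?_⟩
        have hab : a = b := Fin.ext (by omega)
        subst hab
        exact iff_of_false (SimpleGraph.irrefl _) (SimpleGraph.irrefl _))
    rw [hfil] at h
    simp only [Finset.empty_union] at h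
    have h3 : Ex p (ed G) (fun F => if T.IsIndContained (gr F) then 0 else 1) =
        Ex p (ed G) (fun F => if T'.IsIndContained (gr F) then 0 else 1) := by
      unfold Ex
      refine Finset.sum_congr rfl fun F _ => ?_
      beta_reduce
      rw [if_congr (ind_congr e (gr F)) rfl rfl]
    rw [h3]
    refine h.trans (mul_le_mul_of_nonneg_right ?_ (pow_nonneg hX _))
    exact_mod_cast Nat.sub_le f 1

end Pool.Agent.Y662.GX
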